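import Pool.Agent.Y882.GP.Gen

/-!
# Odd integers `n = f(p) + m`, `f` a monic quadratic polynomial, `p` a prime, `m` an almost prime: few exceptions

Let `f = x² + b x + c` with `b`, `c` of opposite parity and `3 ∤ b`. For every natural `r` and `0 < θ ≤ 1 / 2` with
`(1 + θ) (r + 1) > 4`: for all but `O(X ^ (max (2/3, 1 - θ, 4/(r+1) - θ) + ε))` odd `n ≤ X` there are at least
`δ n^θ / (log n)³` primes `p ≤ n^θ` such that `n = f(p) + m`, where `m ≥ 2` has at most `r` prime factors, all of them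
`≥ n^(1/(r+1))`. For `θ = 1 / 2`: `n = f(p) + P₂` for all but `O(X ^ (5/6 + ε))` and `n = f(p) + P₃` for all but
`O(X ^ (2/3 + ε))` odd `n ≤ X`.
-/

set_option autoImplicit false

open Finset

namespace Pool.Agent.Results.MP_d9bc60_nt.AlmostPrimeFewExceptions

open Classical in
/-- The primes `p ≤ n ^ θ` such that `n = (p ^ 2 + b p + c) + m` with `m ≥ 2` having at most `r` prime factors,
counted with multiplicity, all of them at least `n ^ (1 / (r + 1))`. -/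
noncomputable def reps (b c : ℤ) (r : ℕ) (θ : ℝ) (n : ℕ) : Finset ℕ :=
  (range (n + 1)).filter (fun p : ℕ => p.Prime ∧ (p : ℝ) ≤ (n : ℝ) ^ θ ∧
    ∃ m : ℕ, (n : ℤ) = ((p : ℤ) ^ 2 + b * p + c) + m ∧ 2 ≤ m ∧ m.primeFactorsList.length ≤ r ∧
      ∀ q : ℕ, q.Prime → q ∣ m → (n : ℝ) ^ (1 / ((r : ℝ) + 1)) ≤ q)

open Classical in
/-- **Theorem.** Let `b`, `c` have opposite parity, `3 ∤ b`, `0 < θ ≤ 1 / 2` and `(1 + θ) (r + 1) > 4`. All odd `n ≤ X` with at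
most `C X ^ (max (2/3, 1 - θ, 4/(r+1) - θ) + ε)` exceptions are of the form `n = f(p) + m`, `m ≥ 2` with at most `r` prime
factors, all of them at least `n ^ (1/(r+1))`, for at least `δ n ^ θ / (log n)³` primes `p ≤ n ^ θ`. In particular
(`θ = 1/2`) this holds with `r = 2` for all but at most `C X ^ (5/6 + ε)` and with `r = 3` for all but at most
`C X ^ (2/3 + ε)` odd `n ≤ X`. -/
theorem result (b c : ℤ) (hbc : Odd (b + c)) (hb : ¬ (3 : ℤ) ∣ b) :
    (∀ (r : ℕ) (θ ε : ℝ), 0 < θ → θ ≤ 1 / 2 → 4 < (1 + θ) * (r + 1) → 0 < ε →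
      ∃ δ C : ℝ, 0 < δ ∧ 0 < C ∧ ∀ X : ℕ, 1 ≤ X →
        (((Icc 1 X).filter (fun n : ℕ => Odd n ∧
          ((reps b c r θ n).card : ℝ) < δ * (n : ℝ) ^ θ / Real.log n ^ 3)).card : ℝ) ≤
        C * (X : ℝ) ^ (max (max (2 / 3) (1 - θ)) (4 / ((r : ℝ) + 1) - θ) + ε)) ∧
    (∀ ε : ℝ, 0 < ε → ∃ δ C : ℝ, 0 < δ ∧ 0 < C ∧ ∀ X : ℕ, 1 ≤ X →
      (((Icc 1 X).filter (fun n : ℕ => Odd n ∧
        ((reps b c 2 (1 / 2) n).card : ℝ) < δ * (n : ℝ) ^ (1 / 2 : ℝ) / Real.log n ^ 3)).card : ℝ) ≤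
      C * (X : ℝ) ^ (5 / 6 + ε)) ∧
    (∀ ε : ℝ, 0 < ε → ∃ δ C : ℝ, 0 < δ ∧ 0 < C ∧ ∀ X : ℕ, 1 ≤ X →
      (((Icc 1 X).filter (fun n : ℕ => Odd n ∧
        ((reps b c 3 (1 / 2) n).card : ℝ) < δ * (n : ℝ) ^ (1 / 2 : ℝ) / Real.log n ^ 3)).card : ℝ) ≤
      C * (X : ℝ) ^ (2 / 3 + ε)) := by
  have main : ∀ (r : ℕ) (θ ε : ℝ), 0 < θ → θ ≤ 1 / 2 → 4 < (1 + θ) * (r + 1) → 0 < ε →
      ∃ δ C : ℝ, 0 < δ ∧ 0 < C ∧ ∀ X : ℕ, 1 ≤ X →
        (((Icc 1 X).filter (fun n : ℕ => Odd n ∧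
          ((reps b c r θ n).card : ℝ) < δ * (n : ℝ) ^ θ / Real.log n ^ 3)).card : ℝ) ≤
        C * (X : ℝ) ^ (max (max (2 / 3) (1 - θ)) (4 / ((r : ℝ) + 1) - θ) + ε) := by
    intro r θ ε hθ0 hθ1 hr hε
    have hK : ∀ n : ℕ, ∀ q : ℕ, q.Prime → Pool.Agent.Y882.GP.rs (Pool.Agent.Y882.GP.fq b c) (-(n : ℤ)) q ≤ 2 := by
      intro n q hq
      have h4 := (Pool.Agent.Y882.GP.rs_le_ro (Pool.Agent.Y882.GP.fq b c) (-(n : ℤ)) q).trans
        (Pool.Agent.Y882.PX.ro_le (Pool.Agent.Y882.GP.fq b c)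
          (by rw [Pool.Agent.Y882.GP.fq_deg]; norm_num) (-(n : ℤ)) q hq)
      rwa [Pool.Agent.Y882.GP.fq_KF] at h4
    obtain ⟨δ, C, hδ, hC, H⟩ := Pool.Agent.Y882.GP.gen (Pool.Agent.Y882.GP.fq b c)
      (by rw [Pool.Agent.Y882.GP.fq_deg]; norm_num)
      (by rw [Pool.Agent.Y882.GP.fq_monic]; norm_num) 1 (fun n => Odd n)
      (fun n _ q hq => hK n q hq)
      (fun n hn q hq => by
        rcases Nat.lt_or_ge q 4 with h | h
        · have h2 := hq.two_le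
          interval_cases q
          · rw [Pool.Agent.Y882.GP.rs_two b c hbc n hn]
          · have := Pool.Agent.Y882.GP.rs_three b c hb (-(n : ℤ))
            omega
        · have := hK n q hq
          omega)
      r θ ε hθ0 (by
        rw [Pool.Agent.Y882.GP.fq_deg]
        push_cast
        linarith) hr hε
    -- for large `n` the primes `p ≤ n ^ θ` are at most `n`
    refine ⟨δ, C, hδ, hC, fun X hX => ?_⟩
    have hsub : ∀ n : ℕ, Pool.Agent.Y882.GP.good (Pool.Agent.Y882.GP.fq b c) r n ((n : ℝ) ^ θ) ⊆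
        reps b c r θ n := by
      intro n x hx
      unfold Pool.Agent.Y882.GP.good at hx
      unfold reps
      rw [mem_filter, mem_Icc, Pool.Agent.Y882.GP.fq_eval] at hx
      rw [mem_filter, mem_range]
      obtain ⟨⟨h0, h1⟩, h2, h3, h4, h5⟩ := hx
      have hxn : (x : ℝ) ≤ (n : ℝ) ^ θ := (Nat.le_floor_iff (by positivity)).1 h1
      have hn1 : 1 ≤ n := by
        rcases Nat.eq_zero_or_pos n with h | h
        · subst h
          exfalso
          rw [Nat.cast_zero, Real.zero_rpow hθ0.ne'] at hxn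
          have : (1 : ℝ) ≤ x := by exact_mod_cast h0
          linarith
        · exact h
      have hn1r : (1 : ℝ) ≤ n := by exact_mod_cast hn1
      have hxn' : (x : ℝ) ≤ n := by
        refine hxn.trans ?_
        calc (n : ℝ) ^ θ ≤ (n : ℝ) ^ (1 : ℝ) := Real.rpow_le_rpow_of_exponent_le hn1r (by linarith)
          _ = n := Real.rpow_one _
      have hxn'' : x ≤ n := by exact_mod_cast hxn'
      refine ⟨by omega, h2, hxn, ((n : ℤ) - ((x : ℤ) ^ 2 + b * x + c)).natAbs, ?_, ?_, h4, ?_⟩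
      · rw [Int.natCast_natAbs, abs_of_nonneg (by linarith)]
        ring
      · zify
        rw [abs_of_nonneg (by linarith)]
        exact h3
      · intro q hq hqm
        exact h5 q hq (Int.natCast_dvd.2 hqm)
    have hfin : (Icc 1 X).filter (fun n : ℕ => Odd n ∧
          ((reps b c r θ n).card : ℝ) < δ * (n : ℝ) ^ θ / Real.log n ^ 3) ⊆
        (Icc 1 X).filter (fun n : ℕ => Odd n ∧
          ((Pool.Agent.Y882.GP.good (Pool.Agent.Y882.GP.fq b c) r n ((n : ℝ) ^ θ)).card : ℝ) <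
            δ * (n : ℝ) ^ θ / Real.log n ^ (1 + 2)) := by
      intro n hn
      rw [mem_filter] at hn ⊢
      refine ⟨hn.1, hn.2.1, lt_of_le_of_lt ?_ hn.2.2⟩
      exact_mod_cast card_le_card (hsub n)
    refine le_trans (Nat.cast_le.2 (card_le_card hfin)) ?_
    refine le_trans (le_of_eq ?_) (H X hX)
    congr!
  refine ⟨main, ?_, ?_⟩
  · intro ε hε
    obtain ⟨δ, C, hδ, hC, H⟩ := main 2 (1 / 2) ε (by norm_num) le_rfl (by norm_num) hε
    refine ⟨δ, C, hδ, hC, fun X hX => ?_⟩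
    have h := H X hX
    rw [show max (max ((2 : ℝ) / 3) (1 - 1 / 2)) (4 / (((2 : ℕ) : ℝ) + 1) - 1 / 2) = 5 / 6 by
      rw [max_eq_left (by norm_num : (1 : ℝ) - 1 / 2 ≤ 2 / 3), max_eq_right (by norm_num)]
      norm_num] at h
    exact h
  · intro ε hε
    obtain ⟨δ, C, hδ, hC, H⟩ := main 3 (1 / 2) ε (by norm_num) le_rfl (by norm_num) hε
    refine ⟨δ, C, hδ, hC, fun X hX => ?_⟩
    have h := H X hX
    rw [show max (max ((2 : ℝ) / 3) (1 - 1 / 2)) (4 / (((3 : ℕ) : ℝ) + 1) - 1 / 2) = 2 / 3 by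
      rw [max_eq_left (by norm_num : (1 : ℝ) - 1 / 2 ≤ 2 / 3), max_eq_left (by norm_num)]] at h
    exact h

end Pool.Agent.Results.MP_d9bc60_nt.AlmostPrimeFewExceptions
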