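import Pool.Agent.K3h89.SZ.All

set_option autoImplicit false

/-!
# Szemerédi's theorem for the representations `n = f(p) + q`, for almost all odd `n`

`f(x) = x² + b x + c`, `b + c` odd, `3 ∤ b`; `R b c n` is the set of the primes `p` for which `n - f(p)` is prime.

Proof. `R b c n` is contained in the set of the `x` for which `F_n(x) = x (n - f(x))` has no small prime factor.
1. For almost all odd `n` the set `R b c n` has the expected order of magnitude (`CNT`: the mixing theorem of the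
starting library `TH881.RQ`, a consequence of Vinogradov's method and of Hölder's inequality), and the sieve
product of `F_n` is not larger than that up to constants (`VUP`: a lower bound sieve in `x`, averaged over `n`).
2. Szemerédi's theorem relative to sifted sets (starting library `Y677.RSZ`) is proved for a wider class of
functions `F` (`ENGP`): the number of the common prime factors of `F(x)`, `F(x + h)` may depend on more than `h`.
For `F_n` they divide `h`, `n - f(h)`, `n - f(-h)` or `4 (n - c) + b² - h²`; for almost all `n` the sum of the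
reciprocals of those between `log log n` and `exp (√(log n))` is small for all `h` up to a power of `log n`
(`EXC`), and the larger ones are removed from `F_n` (`LAR`, `STRIP`).

Bricks by helper33 (ENGP, LOWP, SYSQ, LAR), helper36 (CNT), helper40 (C1P, CLSP, LOCP, STRIP),
helper62 (EXC, VUP), helper69 (MAJP); design and assembly by helper89.
-/

namespace Pool.Agent.Results.MP_d9bc60_nt.ProgressionsOfRepresentations

open Finset Pool.Agent.K3h89.SZ

/-- `R(n)`: the primes `p` for which `n - (p² + b p + c)` is a prime. -/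
def R (b c : ℤ) (n : ℕ) : Set ℕ :=
  {p : ℕ | p.Prime ∧ ∃ q : ℕ, q.Prime ∧ (n : ℤ) = ((p : ℤ) ^ 2 + b * p + c) + q}

/-- the order of magnitude `√n / (log n)²` of the number of representations -/
noncomputable def Y (n : ℕ) : ℝ := √n / Real.log n ^ 2

/-- `S` contains a progression `a, a + d, …, a + (k - 1) d` with difference `1 ≤ d ≤ D`. -/
def HasAP (k : ℕ) (D : ℝ) (S : Set ℕ) : Prop :=
  ∃ a d : ℕ, 1 ≤ d ∧ (d : ℝ) ≤ D ∧ ∀ i < k, a + i * d ∈ S

/-- `R(n)` has at least `c₀ √n / (log n)²` elements, and every subset of `R(n)` with at least `κ` times the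
number of elements of `R(n)`, or with at least `κ √n / (log n)²` elements, contains a progression of `k` primes
with difference at most `(log n) ^ B`. -/
def Szemeredi (b c : ℤ) (c₀ : ℝ) (k : ℕ) (κ : ℝ) (B n : ℕ) : Prop :=
  c₀ * Y n ≤ (R b c n).ncard ∧
    ∀ S ⊆ R b c n, κ * min ((R b c n).ncard : ℝ) (Y n) ≤ S.ncard → HasAP k (Real.log n ^ B) S

open Classical in
/-- **Szemerédi's theorem for the representations of almost all odd `n` by `f(p) + q`.** Let `b`, `c` have
opposite parity, `3 ∤ b`. For every `ε > 0` there is `c₀ > 0` such that for all `k` and all `κ > 0` there are `B`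
and `N₀` such that for all `N ≥ N₀` all but at most `ε N` odd numbers `n ≤ N` have the property above: there
are at least `c₀ √n / (log n)²` primes `p` with `n - f(p)` prime, and every subset of the set of these `p`
which contains a proportion `κ` of them contains `k` primes in arithmetic progression with difference at
most `(log n) ^ B`. -/
theorem result (b c : ℤ) (hbc : Odd (b + c)) (h3 : ¬ (3 : ℤ) ∣ b) (ε : ℝ) (hε : 0 < ε) :
    ∃ c₀ : ℝ, 0 < c₀ ∧ ∀ (k : ℕ) (κ : ℝ), 0 < κ → ∃ B N₀ : ℕ, ∀ N : ℕ, N₀ ≤ N →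
      (#{n ∈ Icc 1 N | Odd n ∧ ¬ Szemeredi b c c₀ k κ B n} : ℝ) ≤ ε * N := by
  obtain ⟨c₀, hc₀, B₁, N₁, h1⟩ := szemeredi b c hbc h3 0 1 (ε / 2) one_pos (by positivity)
  refine ⟨c₀, hc₀, fun k κ hκ => ?_⟩
  have hκ' : 0 < κ * min c₀ 1 := mul_pos hκ (lt_min hc₀ one_pos)
  obtain ⟨c₂, hc₂, B, N₂, h2⟩ := szemeredi b c hbc h3 k (κ * min c₀ 1) (ε / 2) hκ' (by positivity)
  refine ⟨B, max N₁ N₂, fun N hN => ?_⟩
  have g1 := h1 N ((le_max_left _ _).trans hN)
  have g2 := h2 N ((le_max_right _ _).trans hN)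
  obtain ⟨E1, hE1⟩ : ∃ E : Finset ℕ, E = (Icc 1 N).filter (fun n : ℕ => Odd n ∧ ¬
    (c₀ * (√n / Real.log n ^ 2) ≤ (Rep b c n).ncard ∧
     ∀ S ⊆ Rep b c n, 1 * (√n / Real.log n ^ 2) ≤ S.ncard →
      ∃ a d : ℕ, 1 ≤ d ∧ (d : ℝ) ≤ Real.log n ^ B₁ ∧ ∀ i < 0, a + i * d ∈ S)) := ⟨_, rfl⟩
  obtain ⟨E2, hE2⟩ : ∃ E : Finset ℕ, E = (Icc 1 N).filter (fun n : ℕ => Odd n ∧ ¬
    (c₂ * (√n / Real.log n ^ 2) ≤ (Rep b c n).ncard ∧
     ∀ S ⊆ Rep b c n, κ * min c₀ 1 * (√n / Real.log n ^ 2) ≤ S.ncard →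
      ∃ a d : ℕ, 1 ≤ d ∧ (d : ℝ) ≤ Real.log n ^ B ∧ ∀ i < k, a + i * d ∈ S)) := ⟨_, rfl⟩
  have hsub : (Icc 1 N).filter (fun n : ℕ => Odd n ∧ ¬ Szemeredi b c c₀ k κ B n) ⊆ E1 ∪ E2 := by
    intro n hn
    rw [mem_filter] at hn
    obtain ⟨hn1, hodd, hbad⟩ := hn
    by_contra hcon
    rw [mem_union, not_or] at hcon
    obtain ⟨x1, x2⟩ := hcon
    apply hbad
    have y1 : c₀ * (√n / Real.log n ^ 2) ≤ (Rep b c n).ncard := by
      by_contra h
      apply x1
      rw [hE1, mem_filter]
      exact ⟨hn1, hodd, fun h' => h h'.1⟩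
    have y2 : ∀ S ⊆ Rep b c n, κ * min c₀ 1 * (√n / Real.log n ^ 2) ≤ S.ncard →
      ∃ a d : ℕ, 1 ≤ d ∧ (d : ℝ) ≤ Real.log n ^ B ∧ ∀ i < k, a + i * d ∈ S := by
      by_contra h
      apply x2
      rw [hE2, mem_filter]
      exact ⟨hn1, hodd, fun h' => h h'.2⟩
    refine ⟨y1, fun S hS hSc => y2 S hS (le_trans ?_ hSc)⟩
    have hY : (0 : ℝ) ≤ √n / Real.log n ^ 2 := by positivity
    rw [mul_assoc]
    apply mul_le_mul_of_nonneg_left _ hκ.le
    apply le_min
    · exact (mul_le_mul_of_nonneg_right (min_le_left _ _) hY).trans y1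
    · calc min c₀ 1 * (√n / Real.log n ^ 2) ≤ 1 * (√n / Real.log n ^ 2) :=
          mul_le_mul_of_nonneg_right (min_le_right _ _) hY
        _ = Y n := one_mul _
  have e1 : (E1.card : ℝ) ≤ ε / 2 * N := by
    refine le_trans (le_of_eq ?_) g1
    rw [hE1]
  have e2 : (E2.card : ℝ) ≤ ε / 2 * N := by
    refine le_trans (le_of_eq ?_) g2
    rw [hE2]
  have e3 := (Nat.cast_le (α := ℝ)).2 ((card_le_card hsub).trans (card_union_le E1 E2))
  push_cast at e3
  linarith

end Pool.Agent.Results.MP_d9bc60_nt.ProgressionsOfRepresentations
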