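import Pool.Agent.Y882.GP.Gen
import Pool.Agent.R482.ST.Star

/-!
# `n = f(p) + P₂`, `n = f(p) + P₃` for ALL odd integers `n` near powers, orbits and other sequences, and all
# admissible `f`

Let `g_j`, `j = 0, 1, 2, …`, be positive functions on `(a, ∞)`, `a ≥ 0`, such that `g_j(t) / t` is nondecreasing and
such that the sequence `g_j(t)` has exponent of convergence at most `τ` for each `t > a`: for instance
`g_j(t) = t ^ (v_j)` for exponents `v_j ≥ 1` growing faster than `log j` (`τ = 0`; all powers, the powers `t ^ (3 ^ j)`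
of Mills, …), the orbits `g_j(t) = g (g (⋯ g (t)))` of a map `g` with `g(t) > t` and `g(t) / t` nondecreasing (`τ = 0`;
for instance of `t² + c`), and `g_j(t) = b ^ j t`, `j ^ (1 / τ) t`.

Let `0 < ϑ ≤ 1 / 2`, `(1 + ϑ) (r + 1) > 4` and `e = max (2/3, 1 - ϑ, 4/(r+1) - ϑ)`. For all `α > a` outside a set of
Hausdorff dimension at most `(e + τ) / (1 - θ)`, for ALL the polynomials `f = x² + b x + c` with `b`, `c` of opposite
parity and `3 ∤ b`, there is `δ > 0` such that for each `c'`, for all but finitely many `j`, ALL odd `n` with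
`|n - g_j(α)| ≤ c' g_j(α) ^ θ` are of the form `n = f(p) + m`, `m ≥ 2` with at most `r` prime factors, all of them
`≥ n ^ (1/(r+1))`, for at least `δ n ^ ϑ / (log n)³` primes `p ≤ n ^ ϑ`.

For `ϑ = 1/2`: `e = 5/6` for `r = 2` and `e = 2/3` for `r = 3`. Thus for almost every `α > 1` every odd integer `n` at
distance at most `α ^ (θ j)` from `α ^ j`, `j` large, is `f(p) + P₂` if `θ < 1/6` and `f(p) + P₃` if `θ < 1/3`.

The input is the bound `Pool.Agent.Y882.GP.gen` of the starting library for the number of exceptions, which can be near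
every number; it is combined with the theorem `Pool.Agent.R482.ST.win_nat` on thin sets and starshaped maps.
-/

set_option autoImplicit false

open Finset

namespace Pool.Agent.Results.MP_d9bc60_nt.StarshapedAlmostPrimes

open Pool.Agent.R482.ST

open Classical in
/-- The primes `p ≤ n ^ ϑ` such that `n = (p ^ 2 + b p + c) + m` with `m ≥ 2` having at most `r` prime factors,
counted with multiplicity, all of them at least `n ^ (1 / (r + 1))`. -/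
noncomputable def reps (b c : ℤ) (r : ℕ) (ϑ : ℝ) (n : ℕ) : Finset ℕ :=
  (range (n + 1)).filter (fun p : ℕ => p.Prime ∧ (p : ℝ) ≤ (n : ℝ) ^ ϑ ∧
    ∃ m : ℕ, (n : ℤ) = ((p : ℤ) ^ 2 + b * p + c) + m ∧ 2 ≤ m ∧ m.primeFactorsList.length ≤ r ∧
      ∀ q : ℕ, q.Prime → q ∣ m → (n : ℝ) ^ (1 / ((r : ℝ) + 1)) ≤ q)

open Classical in
/-- the number of exceptions -/
theorem count (b c : ℤ) (hbc : Odd (b + c)) (hb : ¬ (3 : ℤ) ∣ b) (r : ℕ) (ϑ ε : ℝ) (hθ0 : 0 < ϑ)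
    (hθ1 : ϑ ≤ 1 / 2) (hr : 4 < (1 + ϑ) * (r + 1)) (hε : 0 < ε) :
    ∃ δ C : ℝ, 0 < δ ∧ 0 < C ∧ ∀ X : ℕ, 1 ≤ X →
      (((Icc 1 X).filter (fun n : ℕ => Odd n ∧
        ((reps b c r ϑ n).card : ℝ) < δ * (n : ℝ) ^ ϑ / Real.log n ^ 3)).card : ℝ) ≤
      C * (X : ℝ) ^ (max (max (2 / 3) (1 - ϑ)) (4 / ((r : ℝ) + 1) - ϑ) + ε) := by
  have hK : ∀ n : ℕ, ∀ q : ℕ, q.Prime → Pool.Agent.Y882.GP.rs (Pool.Agent.Y882.GP.fq b c) (-(n : ℤ)) q ≤ 2 := by
    intro n q hq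
    have h4 := (Pool.Agent.Y882.GP.rs_le_ro (Pool.Agent.Y882.GP.fq b c) (-(n : ℤ)) q).trans
      (Pool.Agent.Y882.PX.ro_le (Pool.Agent.Y882.GP.fq b c)
        (by rw [Pool.Agent.Y882.GP.fq_deg]; norm_num) (-(n : ℤ)) q hq)
    rwa [Pool.Agent.Y882.GP.fq_KF] at h4
  obtain ⟨δ, C, hδ, hC, H⟩ := Pool.Agent.Y882.GP.gen (Pool.Agent.Y882.GP.fq b c)
    (by rw [Pool.Agent.Y882.GP.fq_deg]; norm_num)
    (by rw [Pool.Agent.Y882.GP.fq_monic]; norm_num) 1 (fun n => Odd n)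
    (fun n _ q hq => hK n q hq)
    (fun n hn q hq => by
      rcases Nat.lt_or_ge q 4 with h | h
      · have h2 := hq.two_le
        interval_cases q
        · rw [Pool.Agent.Y882.GP.rs_two b c hbc n hn]
        · have := Pool.Agent.Y882.GP.rs_three b c hb (-(n : ℤ))
          omega
      · have := hK n q hq
        omega)
    r ϑ ε hθ0 (by
      rw [Pool.Agent.Y882.GP.fq_deg]
      push_cast
      linarith) hr hε
  refine ⟨δ, C, hδ, hC, fun X hX => ?_⟩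
  have hsub : ∀ n : ℕ, Pool.Agent.Y882.GP.good (Pool.Agent.Y882.GP.fq b c) r n ((n : ℝ) ^ ϑ) ⊆
      reps b c r ϑ n := by
    intro n x hx
    unfold Pool.Agent.Y882.GP.good at hx
    unfold reps
    rw [mem_filter, mem_Icc, Pool.Agent.Y882.GP.fq_eval] at hx
    rw [mem_filter, mem_range]
    obtain ⟨⟨h0, h1⟩, h2, h3, h4, h5⟩ := hx
    have hxn : (x : ℝ) ≤ (n : ℝ) ^ ϑ := (Nat.le_floor_iff (by positivity)).1 h1
    have hn1 : 1 ≤ n := by
      rcases Nat.eq_zero_or_pos n with h | h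
      · subst h
        exfalso
        rw [Nat.cast_zero, Real.zero_rpow hθ0.ne'] at hxn
        have : (1 : ℝ) ≤ x := by exact_mod_cast h0
        linarith
      · exact h
    have hn1r : (1 : ℝ) ≤ n := by exact_mod_cast hn1
    have hxn' : (x : ℝ) ≤ n := by
      refine hxn.trans ?_
      calc (n : ℝ) ^ ϑ ≤ (n : ℝ) ^ (1 : ℝ) := Real.rpow_le_rpow_of_exponent_le hn1r (by linarith)
        _ = n := Real.rpow_one _
    have hxn'' : x ≤ n := by exact_mod_cast hxn'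
    refine ⟨by omega, h2, hxn, ((n : ℤ) - ((x : ℤ) ^ 2 + b * x + c)).natAbs, ?_, ?_, h4, ?_⟩
    · rw [Int.natCast_natAbs, abs_of_nonneg (by linarith)]
      ring
    · zify
      rw [abs_of_nonneg (by linarith)]
      exact h3
    · intro q hq hqm
      exact h5 q hq (Int.natCast_dvd.2 hqm)
  have hfin : (Icc 1 X).filter (fun n : ℕ => Odd n ∧
        ((reps b c r ϑ n).card : ℝ) < δ * (n : ℝ) ^ ϑ / Real.log n ^ 3) ⊆
      (Icc 1 X).filter (fun n : ℕ => Odd n ∧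
        ((Pool.Agent.Y882.GP.good (Pool.Agent.Y882.GP.fq b c) r n ((n : ℝ) ^ ϑ)).card : ℝ) <
          δ * (n : ℝ) ^ ϑ / Real.log n ^ (1 + 2)) := by
    intro n hn
    rw [mem_filter] at hn ⊢
    refine ⟨hn.1, hn.2.1, lt_of_le_of_lt ?_ hn.2.2⟩
    exact_mod_cast card_le_card (hsub n)
  refine le_trans (Nat.cast_le.2 (card_le_card hfin)) ?_
  refine le_trans (le_of_eq ?_) (H X hX)
  congr!

/-- **Theorem.** Let `0 < ϑ ≤ 1 / 2`, `(1 + ϑ) (r + 1) > 4`, `e = max (2/3, 1 - ϑ, 4/(r+1) - ϑ)` (for `ϑ = 1/2`: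
`e = 5/6` if `r = 2` and `e = 2/3` if `r = 3`), and let the functions `g j > 0` on `(a, ∞)` be such that `g j t / t` is
nondecreasing and `∑ (g j t) ^ (-s)` converges for `t > a`, `s > τ`. For all `α > a` outside a set of Hausdorff
dimension at most `(e + τ) / (1 - θ)` and ALL the polynomials `x² + b x + c` with `b + c` odd and `3 ∤ b` there is
`δ > 0` such that for each `C` and all but finitely many `j`, EVERY odd `n` with `|n - g j α| ≤ C (g j α) ^ θ` is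
`f(p) + m`, `m ≥ 2` with at most `r` prime factors, for at least `δ n ^ ϑ / (log n)³` primes `p ≤ n ^ ϑ`. -/
theorem result {a τ θ ϑ : ℝ} {r : ℕ} {g : ℕ → ℝ → ℝ} (ha : 0 ≤ a)
    (hg : ∀ j : ℕ, ∀ s t : ℝ, a < s → s ≤ t → 0 < g j s ∧ g j s / s ≤ g j t / t)
    (hτ : 0 ≤ τ) (hc : ∀ t : ℝ, a < t → ∀ s : ℝ, τ < s → Summable (fun j : ℕ => (g j t) ^ (-s)))
    (hθ : θ < 1) (hϑ0 : 0 < ϑ) (hϑ1 : ϑ ≤ 1 / 2) (hr : 4 < (1 + ϑ) * (r + 1)) :
    ∃ E : Set ℝ, dimH E ≤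
        ENNReal.ofReal ((max (max (2 / 3) (1 - ϑ)) (4 / ((r : ℝ) + 1) - ϑ) + τ) / (1 - θ)) ∧
      ∀ α : ℝ, a < α → α ∉ E → ∀ b c : ℤ, Odd (b + c) → ¬ (3 : ℤ) ∣ b →
        ∃ δ : ℝ, 0 < δ ∧ ∀ C : ℝ, ∃ j₀ : ℕ, ∀ j : ℕ, j₀ ≤ j → ∀ n : ℕ, Odd n →
          |(n : ℝ) - g j α| ≤ C * (g j α) ^ θ →
            δ * (n : ℝ) ^ ϑ / Real.log n ^ 3 ≤ ((reps b c r ϑ n).card : ℝ) := by
  classical
  set e : ℝ := max (max (2 / 3) (1 - ϑ)) (4 / ((r : ℝ) + 1) - ϑ) with he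
  have he0 : 0 ≤ e := by
    rw [he]
    exact (by norm_num : (0 : ℝ) ≤ 2 / 3).trans ((le_max_left _ _).trans (le_max_left _ _))
  have hS : Starshaped a g := ⟨ha, hg⟩
  -- one polynomial and one `ε`
  have key : ∀ q : ℤ × ℤ, ∀ k : ℕ, ∃ E : Set ℝ, dimH E ≤
      ENNReal.ofReal ((e + 1 / ((k : ℝ) + 1) + τ) / (1 - θ)) ∧
      ∀ α : ℝ, a < α → α ∉ E → Odd (q.1 + q.2) → ¬ (3 : ℤ) ∣ q.1 →
        ∃ δ : ℝ, 0 < δ ∧ ∀ C : ℝ, ∃ j₀ : ℕ, ∀ j : ℕ, j₀ ≤ j → ∀ n : ℕ, Odd n →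
          |(n : ℝ) - g j α| ≤ C * (g j α) ^ θ →
            δ * (n : ℝ) ^ ϑ / Real.log n ^ 3 ≤ ((reps q.1 q.2 r ϑ n).card : ℝ) := by
    intro q k
    by_cases hq : Odd (q.1 + q.2) ∧ ¬ (3 : ℤ) ∣ q.1
    swap
    · refine ⟨∅, by simp, fun α _ _ h1 h2 => ?_⟩
      exact absurd ⟨h1, h2⟩ hq
    have hk : (0 : ℝ) < 1 / ((k : ℝ) + 1) := by positivity
    obtain ⟨δ, C, hδ, hC, H⟩ := count q.1 q.2 hq.1 hq.2 r ϑ (1 / ((k : ℝ) + 1)) hϑ0 hϑ1 hr hk
    obtain ⟨P, hP⟩ : ∃ P : Set ℕ, P = {n : ℕ | Odd n ∧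
      ((reps q.1 q.2 r ϑ n).card : ℝ) < δ * (n : ℝ) ^ ϑ / Real.log n ^ 3} := ⟨_, rfl⟩
    obtain ⟨E, hE, h⟩ := win_nat P hS hτ hc
      (s := e + 1 / ((k : ℝ) + 1)) (by positivity) hθ (by
        intro ε hε
        refine ⟨C, fun X hX => ?_⟩
        have hX1 : (1 : ℝ) ≤ X := by exact_mod_cast hX
        have h1 := H X hX
        have h2 : (X : ℝ) ^ (e + 1 / ((k : ℝ) + 1)) ≤ (X : ℝ) ^ (e + 1 / ((k : ℝ) + 1) + ε) :=
          Real.rpow_le_rpow_of_exponent_le hX1 (by linarith)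
        refine le_trans (Nat.cast_le.2 (card_le_card ?_)) (h1.trans (mul_le_mul_of_nonneg_left h2 hC.le))
        intro n hn
        rw [mem_filter, mem_Ioc, hP] at hn
        rw [mem_filter, mem_Icc]
        exact ⟨⟨hn.1.1, hn.1.2⟩, hn.2⟩)
    refine ⟨E, hE, fun α hα hαE _ _ => ⟨δ, hδ, fun C' => ?_⟩⟩
    obtain ⟨j₀, hj⟩ := h α hα hαE C'
    refine ⟨j₀, fun j hj' n hn hd => ?_⟩
    obtain ⟨-, hnP⟩ := hj j hj' n hd
    by_contra hcon
    push Not at hcon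
    rw [hP] at hnP
    exact hnP ⟨hn, hcon⟩
  choose E hE H using key
  refine ⟨⋃ q : ℤ × ℤ, ⋂ k : ℕ, E q k, ?_, ?_⟩
  · rw [dimH_iUnion]
    refine iSup_le fun q => ?_
    have h1 : ∀ k : ℕ, dimH (⋂ k : ℕ, E q k) ≤
        ENNReal.ofReal ((e + 1 / ((k : ℝ) + 1) + τ) / (1 - θ)) := fun k =>
      (dimH_mono (Set.iInter_subset _ k)).trans (hE q k)
    have h2 : Filter.Tendsto (fun k : ℕ => ENNReal.ofReal ((e + 1 / ((k : ℝ) + 1) + τ) / (1 - θ)))
        Filter.atTop (nhds (ENNReal.ofReal ((e + 0 + τ) / (1 - θ)))) := by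
      refine ENNReal.tendsto_ofReal (Filter.Tendsto.div_const ?_ _)
      exact (tendsto_const_nhds.add tendsto_one_div_add_atTop_nhds_zero_nat).add_const _
    rw [add_zero] at h2
    exact ge_of_tendsto' h2 h1
  · intro α hα hαE b c hbc hb
    rw [Set.mem_iUnion, not_exists] at hαE
    have h1 := hαE (b, c)
    rw [Set.mem_iInter, not_forall] at h1
    obtain ⟨k, hk⟩ := h1
    exact H (b, c) k α hα hk hbc hb

end Pool.Agent.Results.MP_d9bc60_nt.StarshapedAlmostPrimes
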