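import Pool.Agent.R498.MP.PU9

set_option autoImplicit false

/-!
# `n = f(p) + (almost prime)` along strings of consecutive primes `p`, for every large odd `n`

`f(x) = x² + b x + c`, `b + c` odd, `3 ∤ b`. The method of Maynard and Tao for almost prime values, uniformly
in the polynomial (`Pool.Agent.R498.MP`, starting library), is applied to the polynomials `n - f(x)`.
-/

namespace Pool.Agent.Results.MP_d9bc60_nt.StringsOfConsecutivePrimes

open Filter Polynomial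

/-- `m` is positive and has at most `r` prime factors, counted with multiplicity, all of them at least `w`. -/
def AlmostPrime (r : ℕ) (w : ℝ) (m : ℤ) : Prop :=
  0 < m ∧ m.natAbs.primeFactorsList.length ≤ r ∧ ∀ q : ℕ, q.Prime → (q : ℤ) ∣ m → w ≤ q

/-- The primes in the interval `[x, x + C]` are exactly the numbers `x + s`, `s ∈ H`. -/
def PrimePattern (C : ℕ) (H : Finset ℕ) (x : ℕ) : Prop := ∀ y ≤ C, (x + y).Prime ↔ y ∈ H

/-- The numbers `x` in `(N, 2 N - C]` such that the primes of `[x, x + C]` are exactly the `p = x + s`, `s ∈ H`,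
and for all these `p`: `p ≡ a` modulo `q` and `n - (p² + b p + c)` is positive with at most `r` prime factors,
all of them at least `N ^ δ`. -/
def Strings (b c : ℤ) (n : ℕ) (q a r : ℕ) (δ : ℝ) (C : ℕ) (H : Finset ℕ) (N : ℕ) : Set ℕ :=
  {x : ℕ | N < x ∧ x + C ≤ 2 * N ∧ PrimePattern C H x ∧
    ∀ s ∈ H, x + s ≡ a [MOD q] ∧
      AlmostPrime r ((N : ℝ) ^ δ) ((n : ℤ) - (((x + s : ℕ) : ℤ) ^ 2 + b * ((x + s : ℕ) : ℤ) + c))}

/-- the polynomial `n - (x² + b x + c)` -/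
noncomputable def P (b c : ℤ) (n : ℕ) : ℤ[X] := C ((n : ℤ) - c) - C b * X - X ^ 2

theorem P_eval (b c : ℤ) (n : ℕ) (x : ℤ) : (P b c n).eval x = (n : ℤ) - (x ^ 2 + b * x + c) := by
  simp [P]
  ring

theorem P_deg (b c : ℤ) (n : ℕ) : (P b c n).natDegree ≤ 2 := by
  unfold P
  refine (natDegree_sub_le _ _).trans (max_le ?_ (by simp))
  refine (natDegree_sub_le _ _).trans (max_le ((natDegree_C _).le.trans (by norm_num)) ?_)
  exact (natDegree_C_mul_le b X).trans (natDegree_X_le.trans (by norm_num))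

theorem P_adm (b c : ℤ) (n : ℕ) (hbc : Odd (b + c)) (h3 : ¬ (3 : ℤ) ∣ b) (hn : Odd n) (p : ℕ) (hp : p.Prime) :
    ∃ x : ℤ, ¬ (p : ℤ) ∣ x * (P b c n).eval x := by
  have hpZ : Prime (p : ℤ) := Nat.prime_iff_prime_int.1 hp
  have h1 : ¬ (p : ℤ) ∣ 1 := fun h => hp.one_lt.ne' (Nat.dvd_one.1 (by exact_mod_cast h))
  obtain ⟨k, hk⟩ := hbc
  obtain ⟨l, hl⟩ := hn
  by_cases hp2 : p = 2
  · subst hp2
    refine ⟨1, ?_⟩
    rw [P_eval]
    push_cast
    omega
  by_cases hp3 : p = 3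
  · subst hp3
    by_cases h : (3 : ℤ) ∣ 1 * (P b c n).eval 1
    · refine ⟨2, ?_⟩
      rw [P_eval] at h ⊢
      push_cast
      omega
    · exact ⟨1, by push_cast; exact h⟩
  have h2 : ¬ (p : ℤ) ∣ 2 := by
    intro h
    have : p ∣ 2 := by exact_mod_cast h
    exact hp2 ((Nat.prime_dvd_prime_iff_eq hp Nat.prime_two).1 this)
  have h3' : ¬ (p : ℤ) ∣ 3 := by
    intro h
    have : p ∣ 3 := by exact_mod_cast h
    exact hp3 ((Nat.prime_dvd_prime_iff_eq hp Nat.prime_three).1 this)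
  by_contra hcon
  push Not at hcon
  -- among the values at 1, 2, 3 (or 1, 2, -1 ...) one is not divisible by `p`
  have e1 := hcon 1
  have e2 := hcon 2
  have e3 := hcon 3
  rw [P_eval] at e1 e2 e3
  have f1 : (p : ℤ) ∣ (n : ℤ) - (1 ^ 2 + b * 1 + c) := by
    rcases hpZ.dvd_or_dvd e1 with h | h
    · exact absurd h h1
    · exact h
  have f2 : (p : ℤ) ∣ (n : ℤ) - (2 ^ 2 + b * 2 + c) := by
    rcases hpZ.dvd_or_dvd e2 with h | h
    · exact absurd h h2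
    · exact h
  have f3 : (p : ℤ) ∣ (n : ℤ) - (3 ^ 2 + b * 3 + c) := by
    rcases hpZ.dvd_or_dvd e3 with h | h
    · exact absurd h h3'
    · exact h
  have h4 : (p : ℤ) ∣ 2 := by
    have h5 := dvd_sub (dvd_sub (f2.mul_left 2) f1) f3
    have e : 2 * ((n : ℤ) - (2 ^ 2 + b * 2 + c)) - ((n : ℤ) - (1 ^ 2 + b * 1 + c)) -
      ((n : ℤ) - (3 ^ 2 + b * 3 + c)) = 2 := by ring
    rwa [e] at h5
  exact h2 h4

theorem P_bd (b c : ℤ) (n N A : ℕ) (hN : 3 ≤ N) (hb : |b| ≤ (N : ℤ) ^ A) (hc : |c| ≤ (N : ℤ) ^ A)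
    (hn : n ≤ N ^ A) (x : ℤ) (hx : |x| ≤ 2 * N) : |(P b c n).eval x| ≤ (N : ℤ) ^ (A + 4) := by
  rw [P_eval]
  have h2 : (n : ℤ) ≤ (N : ℤ) ^ A := by exact_mod_cast hn
  have h3 : (1 : ℤ) ≤ (N : ℤ) ^ A := one_le_pow₀ (by exact_mod_cast (by omega : 1 ≤ N))
  have h4 : (3 : ℤ) ≤ N := by exact_mod_cast hN
  obtain ⟨U, hU⟩ : ∃ U : ℤ, U = (N : ℤ) ^ A := ⟨_, rfl⟩
  rw [← hU] at hb hc h2 h3
  have hx0 := abs_nonneg x
  have hb0 := abs_nonneg b
  have h5 : |(n : ℤ) - (x ^ 2 + b * x + c)| ≤ n + (|x| ^ 2 + |b| * |x| + |c|) := by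
    calc |(n : ℤ) - (x ^ 2 + b * x + c)| ≤ |(n : ℤ)| + |x ^ 2 + b * x + c| := abs_sub _ _
      _ ≤ |(n : ℤ)| + (|x ^ 2 + b * x| + |c|) := by gcongr; exact abs_add_le _ _
      _ ≤ |(n : ℤ)| + ((|x ^ 2| + |b * x|) + |c|) := by gcongr; exact abs_add_le _ _
      _ = n + (|x| ^ 2 + |b| * |x| + |c|) := by rw [Nat.abs_cast, abs_pow, abs_mul]
  refine h5.trans ?_
  have h6 : |x| ^ 2 ≤ (2 * N) ^ 2 := pow_le_pow_left₀ hx0 hx 2
  have h7 : |b| * |x| ≤ U * (2 * N) := mul_le_mul hb hx hx0 (by linarith)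
  have h8 : (n : ℤ) + (|x| ^ 2 + |b| * |x| + |c|) ≤ U + ((2 * N) ^ 2 + U * (2 * N) + U) := by linarith
  refine h8.trans ?_
  rw [pow_add, ← hU]
  have h9 : (2 * (N : ℤ)) ^ 2 ≤ U * (2 * N) ^ 2 := by nlinarith [sq_nonneg (2 * (N : ℤ))]
  have h11 : 9 * (N : ℤ) ^ 2 ≤ (N : ℤ) ^ 4 := by
    have : (9 : ℤ) ≤ (N : ℤ) ^ 2 := by nlinarith
    nlinarith [sq_nonneg (N : ℤ)]
  have h10 : (2 : ℤ) + (2 * N) ^ 2 + 2 * N ≤ (N : ℤ) ^ 4 := by nlinarith
  nlinarith

/-- **Every large odd `n` is `f(p)` plus an almost prime along strings of consecutive primes `p`.** Let `q` be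
squarefree and `m ≥ 0`. There are `K`, `B` and `δ > 0` such that for every `A` there is an `r` with the
following property. Let `S` be any finite set of at least `K` nonnegative integers. Then for all large `N`, all
`b`, `c` of opposite parity with `3 ∤ b` and `|b|, |c| ≤ N ^ A`, ALL odd `n ≤ N ^ A` with `f(x) < n` for
`|x| ≤ 2 N`, `f(x) = x² + b x + c`, and all `a` such that `a (n - f(a))` is coprime to `q`, there is a subset `H` of `S`
with at least `m` elements such that at least `N / (log N) ^ B` integers `x` in `(N, 2 N]` are such that the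
primes in `[x, x + max S]` are exactly the numbers `p = x + s`, `s ∈ H`, and each of these consecutive primes
is `≡ a` modulo `q` and `n - f(p)` is positive with at most `r` prime factors, all of them at least `N ^ δ`. -/
theorem result (q : ℕ) (hq : Squarefree q) (m : ℕ) : ∃ (K B : ℕ) (δ : ℝ), 0 < δ ∧
    ∀ A : ℕ, ∃ r : ℕ, ∀ S : Finset ℕ, K ≤ S.card → ∀ᶠ N : ℕ in atTop,
      ∀ b c : ℤ, Odd (b + c) → ¬ (3 : ℤ) ∣ b → |b| ≤ (N : ℤ) ^ A → |c| ≤ (N : ℤ) ^ A →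
      ∀ n : ℕ, Odd n → n ≤ N ^ A → (∀ x : ℤ, |x| ≤ 2 * N → x ^ 2 + b * x + c < n) →
      ∀ a : ℕ, IsCoprime ((a : ℤ) * ((n : ℤ) - ((a : ℤ) ^ 2 + b * a + c))) (q : ℤ) →
      ∃ H ⊆ S, m ≤ H.card ∧
        (N : ℝ) ≤ Real.log N ^ B * (Strings b c n q a r δ (S.sup id) H N).ncard := by
  obtain ⟨K, B, δ, hδ, hmain⟩ := Pool.Agent.R498.MP.stringsUR 2 q hq m
  refine ⟨K, B, δ, hδ, fun A => ?_⟩
  obtain ⟨r, hr⟩ := hmain (A + 4)
  refine ⟨r, fun S hS => ?_⟩
  filter_upwards [hr S hS, eventually_ge_atTop (S.sup id + 3)] with N hN hN3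
  intro b c hbc h3 hb hc n hn hnA hpos a ha
  obtain ⟨H, hH, hHm, T, hT, hmem⟩ := hN (P b c n) (P_deg b c n) (P_adm b c n hbc h3 hn)
    (P_bd b c n N A (by omega) hb hc hnA) (fun x _ hx => by
      rw [P_eval]
      have h1 : |x| ≤ 2 * N := by omega
      have := hpos x h1
      omega) a (by
      intro p hp hpq h
      rw [P_eval] at h
      have h1 : (p : ℤ) ∣ (q : ℤ) := Int.natCast_dvd_natCast.2 hpq
      have h2 : IsUnit (p : ℤ) := ha.isUnit_of_dvd' h h1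
      rw [Int.isUnit_iff] at h2
      have h3 := hp.one_lt
      omega)
  refine ⟨H, hH, hHm, hT.trans ?_⟩
  have hlog : 0 ≤ Real.log N := Real.log_natCast_nonneg N
  apply mul_le_mul_of_nonneg_left _ (by positivity)
  have hfin : (Strings b c n q a r δ (S.sup id) H N).Finite :=
    (Set.finite_Iic (2 * N)).subset (fun x hx => by
      have := hx.2.1
      show x ≤ 2 * N
      omega)
  have hsub : (T : Set ℕ) ⊆ Strings b c n q a r δ (S.sup id) H N := by
    intro x hx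
    obtain ⟨h1, h2, h3, h4⟩ := hmem x hx
    refine ⟨h1, h2, h3, fun s hs => ⟨(h4 s hs).1, ?_⟩⟩
    obtain ⟨g1, g2, g3⟩ := (h4 s hs).2
    rw [P_eval] at g1 g2 g3
    refine ⟨?_, g2, g3⟩
    have h6 : s ≤ S.sup id := Finset.le_sup (f := id) (hH hs)
    have h5 : |((x + s : ℕ) : ℤ)| ≤ 2 * N := by
      rw [Nat.abs_cast]
      exact_mod_cast (by omega : x + s ≤ 2 * N)
    have := hpos _ h5
    linarith
  have h1 := Set.ncard_le_ncard hsub hfin
  rw [Set.ncard_coe_finset] at h1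
  exact_mod_cast h1

end Pool.Agent.Results.MP_d9bc60_nt.StringsOfConsecutivePrimes
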